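import Mathlib

/-!
# The rational Ehrhart numerator of an odd cyclic block polytope need not be gamma-nonnegative

For `a = 1`, `m = 3` the number `L(q)` of triples `(x, y, z)` of nonnegative integers with pairwise
sums at most `q` satisfies `L(q + 2) = L(q) + (3 n ^ 2 + 3 n + 2) / 2` with `n = q + 2`, which gives
`h = 1 + 4 z + 7 z ^ 2 + 7 z ^ 3 + 4 z ^ 4 + z ^ 5` and `γ_1 = 4 - 5 = -1`.
-/

set_option autoImplicit false

open Finset Polynomial

namespace Pool.Agent.Results.MP_308823_co.NotGammaNonneg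

/-- The cyclic block polytope `C_m^{(a)}`: all coordinates are nonnegative and `R_i + R_{i+1} ≤ 1`
for cyclically consecutive blocks, where `R_i` is the sum of the block `i`. -/
def block (m a : ℕ) : Set (Fin m → Fin a → ℝ) :=
  {x | (∀ i j, 0 ≤ x i j) ∧
    ∀ i k : Fin m, (k : ℕ) = ((i : ℕ) + 1) % m → ∑ j, x i j + ∑ j, x k j ≤ 1}

/-- The number `L(q)` of integer points of the dilate `q C_m^{(a)} = {q y : y ∈ C_m^{(a)}}`. -/
noncomputable def L (m a q : ℕ) : ℕ :=
  Set.ncard {x : Fin m → Fin a → ℤ |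
    (fun i j => (x i j : ℝ)) ∈ (fun y : Fin m → Fin a → ℝ => (q : ℝ) • y) '' block m a}

/-- `h` is the rational Ehrhart numerator: `∑ L(q) z ^ q = h(z) / (1 - z ^ 2) ^ (a m + 1)`. -/
def IsNumerator (m a : ℕ) (h : ℤ[X]) : Prop :=
  PowerSeries.mk (fun q => (L m a q : ℤ)) * (1 - PowerSeries.X ^ 2) ^ (a * m + 1) =
    (h : PowerSeries ℤ)

/-- `h` is gamma-nonnegative: `h(z) = ∑ γ_j z ^ j (1 + z) ^ (N - 2 j)` with all `γ_j ≥ 0`, where `N`
is the degree of `h`. -/
def GammaNonneg (h : ℤ[X]) : Prop :=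
  ∃ γ : ℕ → ℝ, (∀ j, 0 ≤ γ j) ∧ h.map (Int.castRingHom ℝ) =
    ∑ j ∈ range (h.natDegree / 2 + 1), C (γ j) * X ^ j * (1 + X) ^ (h.natDegree - 2 * j)

/-- the pairs with sum at most `n` -/
def pairs (n : ℕ) : Finset (ℕ × ℕ) :=
  ((range (n + 1)) ×ˢ (range (n + 1))).filter fun p => p.1 + p.2 ≤ n

theorem mem_pairs {n : ℕ} {p : ℕ × ℕ} : p ∈ pairs n ↔ p.1 + p.2 ≤ n := by
  unfold pairs
  simp only [mem_filter, mem_product, mem_range]
  omega

theorem card_pairs (n : ℕ) : 2 * (pairs n).card = (n + 1) * (n + 2) := by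
  have h1 : (pairs n).card = ∑ y ∈ range (n + 1), (n + 1 - y) := by
    unfold pairs
    rw [card_filter, sum_product]
    apply sum_congr rfl
    intro y hy
    rw [← card_filter]
    have : (range (n + 1)).filter (fun z => (y, z).1 + (y, z).2 ≤ n) = range (n + 1 - y) := by
      ext z
      simp only [mem_filter, mem_range] at *
      omega
    rw [this, card_range]
  rw [h1]
  clear h1
  induction n with
  | zero => simp
  | succ n ih =>
    rw [sum_range_succ']
    have : ∀ y ∈ range (n + 1), n + 1 + 1 - (y + 1) = n + 1 - y := fun y _ => by omega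
    rw [sum_congr rfl this, mul_add, ih]
    ring_nf
    omega

/-- the triples with pairwise sums at most `n` -/
def triples (n : ℕ) : Finset (ℕ × ℕ × ℕ) :=
  ((range (n + 1)) ×ˢ (range (n + 1)) ×ˢ (range (n + 1))).filter
    fun p => p.1 + p.2.1 ≤ n ∧ p.2.1 + p.2.2 ≤ n ∧ p.1 + p.2.2 ≤ n

theorem mem_triples {n : ℕ} {p : ℕ × ℕ × ℕ} :
    p ∈ triples n ↔ p.1 + p.2.1 ≤ n ∧ p.2.1 + p.2.2 ≤ n ∧ p.1 + p.2.2 ≤ n := by
  unfold triples
  simp only [mem_filter, mem_product, mem_range]
  omega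

theorem card_triples_succ (n : ℕ) :
    2 * (triples (n + 2)).card = 2 * (triples n).card + (3 * (n + 2) ^ 2 + 3 * (n + 2) + 2) := by
  have e : triples (n + 2) =
      (triples n).image (fun p => (p.1 + 1, p.2.1 + 1, p.2.2 + 1)) ∪
      ((pairs (n + 2)).image (fun p => (0, p.1, p.2)) ∪
      ((pairs (n + 1)).image (fun p => (p.1 + 1, 0, p.2)) ∪
      (pairs n).image (fun p => (p.1 + 1, p.2 + 1, 0)))) := by
    ext ⟨x, y, z⟩
    simp only [mem_union, mem_image, mem_triples, mem_pairs, Prod.mk.injEq, Prod.exists]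
    constructor
    · rintro ⟨h1, h2, h3⟩
      rcases x with _ | x
      · exact Or.inr (Or.inl ⟨y, z, by omega, rfl, rfl, rfl⟩)
      rcases y with _ | y
      · exact Or.inr (Or.inr (Or.inl ⟨x, z, by omega, rfl, rfl, rfl⟩))
      rcases z with _ | z
      · exact Or.inr (Or.inr (Or.inr ⟨x, y, by omega, rfl, rfl, rfl⟩))
      · exact Or.inl ⟨x, y, z, by omega, rfl, rfl, rfl⟩
    · rintro (⟨a, b, c, h, rfl, rfl, rfl⟩ | ⟨a, b, h, rfl, rfl, rfl⟩ | ⟨a, b, h, rfl, rfl, rfl⟩ |
        ⟨a, b, h, rfl, rfl, rfl⟩) <;> omega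
  have d1 : Disjoint ((pairs (n + 1)).image (fun p => (p.1 + 1, 0, p.2)))
      ((pairs n).image (fun p => (p.1 + 1, p.2 + 1, 0))) := by
    rw [disjoint_left]
    intro p hp hq
    rw [mem_image] at hp hq
    obtain ⟨a, _, rfl⟩ := hp
    obtain ⟨b, _, hb⟩ := hq
    simp only [Prod.mk.injEq] at hb
    omega
  have d2 : Disjoint ((pairs (n + 2)).image (fun p => (0, p.1, p.2)))
      (((pairs (n + 1)).image (fun p => (p.1 + 1, 0, p.2)) ∪
      (pairs n).image (fun p => (p.1 + 1, p.2 + 1, 0)))) := by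
    rw [disjoint_left]
    intro p hp hq
    rw [mem_union, mem_image, mem_image] at hq
    rw [mem_image] at hp
    obtain ⟨a, _, rfl⟩ := hp
    rcases hq with ⟨b, _, hb⟩ | ⟨b, _, hb⟩ <;> simp only [Prod.mk.injEq] at hb <;> omega
  have d3 : Disjoint ((triples n).image (fun p => (p.1 + 1, p.2.1 + 1, p.2.2 + 1)))
      ((pairs (n + 2)).image (fun p => (0, p.1, p.2)) ∪
      ((pairs (n + 1)).image (fun p => (p.1 + 1, 0, p.2)) ∪
      (pairs n).image (fun p => (p.1 + 1, p.2 + 1, 0)))) := by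
    rw [disjoint_left]
    intro p hp hq
    rw [mem_union, mem_union, mem_image, mem_image, mem_image] at hq
    rw [mem_image] at hp
    obtain ⟨a, _, rfl⟩ := hp
    rcases hq with ⟨b, _, hb⟩ | ⟨b, _, hb⟩ | ⟨b, _, hb⟩ <;> simp only [Prod.mk.injEq] at hb <;>
      omega
  rw [e, card_union_of_disjoint d3, card_union_of_disjoint d2, card_union_of_disjoint d1,
    card_image_of_injective, card_image_of_injective, card_image_of_injective,
    card_image_of_injective]
  · have h1 := card_pairs (n + 2)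
    have h2 := card_pairs (n + 1)
    have h3 := card_pairs n
    nlinarith
  · rintro ⟨a, b⟩ ⟨c, d⟩ h
    simp only [Prod.mk.injEq] at h ⊢
    omega
  · rintro ⟨a, b⟩ ⟨c, d⟩ h
    simp only [Prod.mk.injEq] at h ⊢
    omega
  · rintro ⟨a, b⟩ ⟨c, d⟩ h
    simp only [Prod.mk.injEq] at h ⊢
    omega
  · rintro ⟨a, b, c⟩ ⟨d, e, f⟩ h
    simp only [Prod.mk.injEq] at h ⊢
    omega

theorem mem_smul_block (q : ℕ) (x : Fin 3 → Fin 1 → ℤ) :
    (fun i j => (x i j : ℝ)) ∈ (fun y : Fin 3 → Fin 1 → ℝ => (q : ℝ) • y) '' block 3 1 ↔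
      (0 ≤ x 0 0 ∧ 0 ≤ x 1 0 ∧ 0 ≤ x 2 0) ∧
        x 0 0 + x 1 0 ≤ q ∧ x 1 0 + x 2 0 ≤ q ∧ x 0 0 + x 2 0 ≤ q := by
  constructor
  · rintro ⟨y, ⟨hy0, hy⟩, hxy⟩
    have h01 := hy 0 1 rfl
    have h12 := hy 1 2 rfl
    have h20 := hy 2 0 rfl
    simp only [univ_unique, sum_singleton, Fin.default_eq_zero] at h01 h12 h20
    have hx : ∀ i, (x i 0 : ℝ) = q * y i 0 := fun i => by
      have := congrFun (congrFun hxy i) 0
      simpa using this.symm
    have hq : (0 : ℝ) ≤ q := Nat.cast_nonneg q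
    have n0 : ∀ i, 0 ≤ x i 0 := fun i => by
      have : (0 : ℝ) ≤ (x i 0 : ℝ) := by
        rw [hx]
        exact mul_nonneg hq (hy0 i 0)
      exact_mod_cast this
    refine ⟨⟨n0 0, n0 1, n0 2⟩, ?_, ?_, ?_⟩
    · have : ((x 0 0 + x 1 0 : ℤ) : ℝ) ≤ q := by
        push_cast
        rw [hx, hx]
        nlinarith
      exact_mod_cast this
    · have : ((x 1 0 + x 2 0 : ℤ) : ℝ) ≤ q := by
        push_cast
        rw [hx, hx]
        nlinarith
      exact_mod_cast this
    · have : ((x 0 0 + x 2 0 : ℤ) : ℝ) ≤ q := by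
        push_cast
        rw [hx, hx]
        nlinarith
      exact_mod_cast this
  · rintro ⟨⟨n0, n1, n2⟩, h01, h12, h02⟩
    rcases Nat.eq_zero_or_pos q with rfl | hq
    · refine ⟨0, ⟨fun _ _ => le_rfl, fun i k _ => by simp⟩, ?_⟩
      push_cast at h01 h12 h02
      funext i j
      obtain rfl : j = 0 := Subsingleton.elim _ _
      have : x i 0 = 0 := by
        fin_cases i
        · change x 0 0 = 0
          omega
        · change x 1 0 = 0
          omega
        · change x 2 0 = 0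
          omega
      simp [this]
    · have hq' : (0 : ℝ) < q := by exact_mod_cast hq
      refine ⟨fun i j => (x i j : ℝ) / q, ⟨fun i j => ?_, fun i k hik => ?_⟩, ?_⟩
      · obtain rfl : j = 0 := Subsingleton.elim _ _
        apply div_nonneg _ hq'.le
        have : 0 ≤ x i 0 := by
          fin_cases i
          · exact n0
          · exact n1
          · exact n2
        exact_mod_cast this
      · simp only [univ_unique, sum_singleton, Fin.default_eq_zero]
        rw [← add_div, div_le_one hq']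
        have : x i 0 + x k 0 ≤ q := by
          fin_cases i <;> fin_cases k <;> simp at hik <;> simp <;> omega
        exact_mod_cast this
      · funext i j
        simp only [Pi.smul_apply, smul_eq_mul]
        field_simp

theorem L_eq (q : ℕ) : L 3 1 q = (triples q).card := by
  unfold L
  have : {x : Fin 3 → Fin 1 → ℤ |
      (fun i j => (x i j : ℝ)) ∈ (fun y : Fin 3 → Fin 1 → ℝ => (q : ℝ) • y) '' block 3 1} =
      (fun p : ℕ × ℕ × ℕ => (fun i _ => (![(p.1 : ℤ), (p.2.1 : ℤ), (p.2.2 : ℤ)] i) :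
        Fin 3 → Fin 1 → ℤ)) '' (triples q : Set (ℕ × ℕ × ℕ)) := by
    ext x
    rw [Set.mem_ofPred_eq, mem_smul_block, Set.mem_image]
    constructor
    · rintro ⟨⟨n0, n1, n2⟩, h01, h12, h02⟩
      refine ⟨((x 0 0).toNat, (x 1 0).toNat, (x 2 0).toNat), ?_, ?_⟩
      · rw [mem_coe, mem_triples]
        simp only
        omega
      · funext i j
        obtain rfl : j = 0 := Subsingleton.elim _ _
        fin_cases i
        · exact Int.toNat_of_nonneg n0
        · exact Int.toNat_of_nonneg n1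
        · exact Int.toNat_of_nonneg n2
    · rintro ⟨p, hp, rfl⟩
      rw [mem_coe, mem_triples] at hp
      simp only [Matrix.cons_val_zero, Matrix.cons_val_one, Matrix.cons_val]
      omega
  rw [this, Set.ncard_image_of_injective, Set.ncard_coe_finset]
  rintro ⟨a, b, c⟩ ⟨d, e, f⟩ h
  have h0 := congrFun (congrFun h 0) 0
  have h1 := congrFun (congrFun h 1) 0
  have h2 := congrFun (congrFun h 2) 0
  simp only [Matrix.cons_val_zero, Matrix.cons_val_one, Matrix.cons_val] at h0 h1 h2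
  simp only [Prod.mk.injEq]
  omega

/-- the numerator for `m = 3`, `a = 1` -/
noncomputable def h31 : ℤ[X] := 1 + 4 * X + 7 * X ^ 2 + 7 * X ^ 3 + 4 * X ^ 4 + X ^ 5

theorem step1 (f g : ℕ → ℤ) (h0 : g 0 = f 0) (h : ∀ n, g (n + 1) = f (n + 1) - f n) :
    (1 - PowerSeries.X) * PowerSeries.mk f = PowerSeries.mk g := by
  ext n
  rw [sub_mul, one_mul, map_sub, PowerSeries.coeff_mk, PowerSeries.coeff_mk]
  rcases n with _ | n
  · rw [PowerSeries.coeff_zero_X_mul, h0, sub_zero]
  · rw [PowerSeries.coeff_succ_X_mul, PowerSeries.coeff_mk, h]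

theorem step2 (f g : ℕ → ℤ) (h0 : g 0 = f 0) (h1 : g 1 = f 1)
    (h : ∀ n, g (n + 2) = f (n + 2) - f n) :
    (1 - PowerSeries.X ^ 2) * PowerSeries.mk f = PowerSeries.mk g := by
  ext n
  rw [sub_mul, one_mul, map_sub, PowerSeries.coeff_mk, PowerSeries.coeff_mk, pow_two, mul_assoc]
  rcases n with _ | _ | n
  · rw [PowerSeries.coeff_zero_X_mul, h0, sub_zero]
  · rw [PowerSeries.coeff_succ_X_mul, PowerSeries.coeff_zero_X_mul, sub_zero, h1]
  · rw [PowerSeries.coeff_succ_X_mul, PowerSeries.coeff_succ_X_mul, PowerSeries.coeff_mk, h]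

theorem mkz : (1 - PowerSeries.X) ^ 3 * PowerSeries.mk (fun q => (3 * (q + 1).choose 2 + 1 : ℤ)) =
    (1 + PowerSeries.X + PowerSeries.X ^ 2 : PowerSeries ℤ) := by
  have s1 := step1 (fun q => (3 * (q + 1).choose 2 + 1 : ℤ)) (fun n => if n = 0 then 1 else 3 * n)
    (by simp) (fun n => by
      have : (n + 1 + 1).choose 2 = (n + 1) + (n + 1).choose 2 := by
        rw [Nat.choose_succ_succ' (n + 1) 1, Nat.choose_one_right]
      rw [this]
      simp only [Nat.add_eq_zero_iff, one_ne_zero, and_false, ↓reduceIte]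
      push_cast
      ring)
  have s2 := step1 (fun n => if n = 0 then 1 else 3 * n)
    (fun n => if n = 0 then 1 else if n = 1 then 2 else 3) (by simp) (fun n => by
      rcases n with _ | n
      · simp
      · simp only [Nat.add_eq_zero_iff, one_ne_zero, and_false, ↓reduceIte, Nat.add_eq_right]
        push_cast
        ring)
  have s3 := step1 (fun n => if n = 0 then 1 else if n = 1 then 2 else 3)
    (fun n => if n < 3 then 1 else 0) (by simp) (fun n => by
      rcases n with _ | _ | n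
      · simp
      · simp
      · simp)
  rw [pow_succ, pow_two, mul_assoc, mul_assoc, s1, s2, s3]
  ext n
  rw [PowerSeries.coeff_mk, map_add, map_add, PowerSeries.coeff_one, PowerSeries.coeff_X,
    PowerSeries.coeff_X_pow]
  rcases n with _ | _ | _ | n <;> simp

theorem numerator : IsNumerator 3 1 h31 := by
  unfold IsNumerator
  have t0 : L 3 1 0 = 1 := by rw [L_eq]; decide
  have t1 : L 3 1 1 = 4 := by rw [L_eq]; decide
  have s := step2 (fun q => (L 3 1 q : ℤ)) (fun q => (3 * (q + 1).choose 2 + 1 : ℤ))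
    (by simp [t0]) (by simp [t1]) (fun n => by
      have h := card_triples_succ n
      rw [← L_eq, ← L_eq] at h
      have h2 : 2 * (n + 2 + 1).choose 2 = (n + 2 + 1) * (n + 2) := by
        rw [Nat.choose_two_right]
        exact Nat.mul_div_cancel' (Nat.even_mul_pred_self _).two_dvd
      zify at h h2
      linarith)
  have e : (1 - PowerSeries.X ^ 2 : PowerSeries ℤ) ^ (1 * 3 + 1) =
      (1 - PowerSeries.X ^ 2) * ((1 - PowerSeries.X) ^ 3 * (1 + PowerSeries.X) ^ 3) := by
    ring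
  rw [e, ← mul_assoc, mul_comm (PowerSeries.mk _), s, ← mul_assoc, mul_comm (PowerSeries.mk _), mkz]
  unfold h31
  push_cast [Polynomial.coe_add, Polynomial.coe_mul, Polynomial.coe_pow, Polynomial.coe_X,
    Polynomial.coe_one]
  have c4 : ((4 : ℤ[X]) : PowerSeries ℤ) = 4 :=
    map_ofNat (Polynomial.coeToPowerSeries.ringHom (R := ℤ)) 4
  have c7 : ((7 : ℤ[X]) : PowerSeries ℤ) = 7 :=
    map_ofNat (Polynomial.coeToPowerSeries.ringHom (R := ℤ)) 7
  rw [c4, c7]
  ring

theorem natDegree_h31 : h31.natDegree = 5 := by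
  unfold h31
  compute_degree!

theorem not_gamma : ¬ GammaNonneg h31 := by
  rintro ⟨γ, hγ, h⟩
  rw [natDegree_h31] at h
  have e : (∑ j ∈ range (5 / 2 + 1), C (γ j) * X ^ j * (1 + X) ^ (5 - 2 * j) : ℝ[X]) =
      C (γ 0) + C (5 * γ 0 + γ 1) * X + X ^ 2 * (C (10 * γ 0 + 3 * γ 1 + γ 2) +
        C (10 * γ 0 + 3 * γ 1 + γ 2) * X + C (5 * γ 0 + γ 1) * X ^ 2 + C (γ 0) * X ^ 3) := by
    simp only [sum_range_succ, range_zero, sum_empty, map_add, map_mul, map_ofNat, zero_add,
      pow_zero, mul_one, mul_zero, Nat.sub_zero, Nat.reduceDiv, Nat.reduceSub, Nat.reduceMul,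
      pow_one]
    ring
  have e' : h31.map (Int.castRingHom ℝ) =
      C 1 + C 4 * X + X ^ 2 * (C 7 + C 7 * X + C 4 * X ^ 2 + C 1 * X ^ 3) := by
    unfold h31
    simp only [Polynomial.map_add, Polynomial.map_mul, Polynomial.map_pow, Polynomial.map_X,
      Polynomial.map_one, Polynomial.map_ofNat]
    simp only [map_one, map_ofNat]
    ring
  rw [e, e'] at h
  have e0 := congrArg (fun p => Polynomial.coeff p 0) h
  have e1 := congrArg (fun p => Polynomial.coeff p 1) h
  simp only [coeff_add, coeff_C_mul, coeff_X_pow_mul', coeff_X, coeff_C] at e0 e1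
  norm_num at e0 e1
  have := hγ 1
  linarith

/-- **Q2 has a negative answer**, already for `m = 3` and `a = 1`. -/
theorem result : ∃ (m a : ℕ), 1 ≤ a ∧ 3 ≤ m ∧ Odd m ∧ ∃ h : ℤ[X], IsNumerator m a h ∧
    ¬ GammaNonneg h :=
  ⟨3, 1, le_rfl, le_rfl, by decide, h31, numerator, not_gamma⟩

end Pool.Agent.Results.MP_308823_co.NotGammaNonneg
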